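import Pool.Agent.Helper94.KM.L8
import Pool.Agent.Results.MP_6090f9_nt.ProductsOfPencils

/-!
# The residue formula for the products of the Jacobians of linear pencils of hyperelliptic curves

Let `M` be a finitely generated field of characteristic zero and of transcendence degree `d` over `ℚ`,
which contains the number field `k`, and let `K = M(w)`: the function field of a variety over `k` of
dimension `d + 1`.  For `i < m` let `C_i : Y² = F_i(X)`, `F_i = c_i + w b_i`, be a hyperelliptic curve over
`K`, where `b_i, c_i ∈ M[X]`, `c_i` is monic of degree `2 g_i + 1`, `deg b_i ≤ 2 g_i`, `b_i ≠ 0` and `F_i`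
has no multiple zeros.  Let `J_i` be the Jacobian of `C_i`, and let `X = J_1 × ... × J_m`: an abelian variety
of dimension `g_1 + ... + g_m`.

The algebraic side.  `NS(X/K)` is the direct sum of the groups `NS(J_i/K)` and, for `i < j`, of the groups
`Hom_K(J_i, J_j) = J_j(K(C_i)) / J_j(K)`.  The ranks `r_j` of `J_j(K)` and `r_{ij}` of `J_j(K(C_i))` have been
computed in the starting file `ProductsOfPencils`.  The group `NS(J/K)`, for `J = J_i`, `b = b_i`, `c = c_i`, is
the group of the elements of `End_K(J) = J(K(C)) / J(K)` which are invariant under the Rosati involution.  By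
the computation in the starting file, `End_K(J)` is generated, up to a finite index, by the correspondences

  `δ(x, X) = 0`, `r y = b(x) Y`  on `C × C`,

for the monic irreducible divisors `δ` of `c(X) - (c(x) / b(x)) b(X)` in `M(x)[X]` with `b(x) b(X) = r²` modulo
`δ`, `r ≠ 0`; there is one relation if `b` is a constant times a square, and none otherwise.  For
`δ = X - x` this is the identity.  The other `δ` are the orbits of the Galois group of `K` on the ordered pairs
`(x₁, x₂)` of different zeros of `F`.  The Rosati involution interchanges `(δ(x, X), r(x, X))` and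
`(δ(X, x), r(X, x))`; if `δ(x, X)` and `δ(X, x)` define the same curve, then `r(X, x) = ± r(x, X)`, and the sign
is `+` if and only if `r` is in the field generated by `x + X` and `x X`.  Thus

  `rank NS(J/K) = 1 + σ - ε`,

where `σ` is the number of the orbits of the Galois group of `K` on the pairs `{x₁, x₂}` of different zeros
of `F` for which `b(x₁) b(x₂)` is a nonzero square in `K(x₁ + x₂, x₁ x₂)`, and `ε = 1` if `b` is a
constant times a square and `ε = 0` otherwise.  (For `b = 1` this is the number of all the orbits of the pairs of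
zeros.)

The analytic side.  `H²(X) = ∧² H¹(X)` and `H¹(X) = ⨁ H¹(C_i)`.  So the trace of the Frobenius on `H²` of a
fibre of `X` of good reduction is `((∑ a_i)² - ∑ a_i') / 2`, where `a_i` and `a_i'` are the traces on `H¹(C_i)`
of the Frobenius and of its square.  We prove: for every model of `K` and of the curves over the integers of
`k`, the series of the averages `𝔅_v` of the traces of the Frobenius on `H²` of the fibres of `X` has a
residue at `s = 2`, and it is

  `∑_i (1 + σ_i - ε_i) + ∑_{i < j} (r_{ij} - r_j)`.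
-/

set_option autoImplicit false

namespace Pool.Agent.Results.MP_6090f9_nt.ProductsOfJacobians

open Polynomial NumberField IsDedekindDomain
open Pool.Agent.Y707.PR (HasResidue)
open Pool.Agent.Results.MP_6090f9_nt.ProductsOfPencils (ClassGroupHasRank IsFunctionField traceOne rho
  overB overC)

/-- The polynomial `c(X) + w b(X)` over `K`. -/
noncomputable def curve {M K : Type} [Field M] [Field K] [Algebra M K] (b c : M[X]) (w : K) : K[X] :=
  c.map (algebraMap M K) + C w * b.map (algebraMap M K)

/-- The monic quadratic divisors of `F` over the algebraic closure of `K`: if `F` has no multiple zeros, the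
pairs of different zeros of `F`. -/
abbrev Pair {K : Type} [Field K] (F : K[X]) : Type :=
  {D : (AlgebraicClosure K)[X] // D.Monic ∧ D.natDegree = 2 ∧ D ∣ F.map (algebraMap K (AlgebraicClosure K))}

/-- Two quadratic divisors are conjugate over `K`. -/
def Conjugate {K : Type} [Field K] (F : K[X]) (D D' : Pair F) : Prop :=
  ∃ σ : AlgebraicClosure K ≃ₐ[K] AlgebraicClosure K,
    D.1.map (σ : AlgebraicClosure K →+* AlgebraicClosure K) = D'.1

/-- `D = (X - x₁) (X - x₂)`, and `b(x₁) b(x₂)` is a nonzero square in the field `K(x₁ + x₂, x₁ x₂)`. -/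
def IsSplit {K : Type} [Field K] (b : K[X]) (D : (AlgebraicClosure K)[X]) : Prop :=
  ∃ x₁ x₂ z : AlgebraicClosure K, D = (X - C x₁) * (X - C x₂) ∧
    z ∈ IntermediateField.adjoin K {x₁ + x₂, x₁ * x₂} ∧ z ≠ 0 ∧ z ^ 2 = aeval x₁ b * aeval x₂ b

/-- The number of the orbits of the pairs of zeros `x₁, x₂` of `F` for which `b(x₁) b(x₂)` is a nonzero
square in `K(x₁ + x₂, x₁ x₂)`. -/
noncomputable def splitOrbits {K : Type} [Field K] (b F : K[X]) : ℕ :=
  Nat.card {o : Quot (Conjugate F) // ∃ D, Quot.mk _ D = o ∧ IsSplit b D.1}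

open Classical in
/-- `1` if `b` is a constant times a square, and `0` otherwise. -/
noncomputable def squareDefect {M : Type} [Field M] (b : M[X]) : ℤ :=
  if ∃ (a : M) (s : M[X]), b = C a * s ^ 2 then 1 else 0

/-- The rank of the Néron-Severi group of the Jacobian of the curve `Y² = c(X) + w b(X)` over `M(w)`. -/
noncomputable def rankJacobian {M K : Type} [Field M] [Field K] [Algebra M K] (b c : M[X]) (w : K) : ℤ :=
  1 + splitOrbits (b.map (algebraMap M K)) (curve b c w) - squareDefect b

/-- The rank of the Néron-Severi group of `J_1 × ... × J_m` over `K`. -/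
noncomputable def rankNS {M K : Type} [Field M] [Field K] [Algebra M K] {m : ℕ} (b c : Fin m → M[X])
    (w : K) : ℤ :=
  ∑ i, rankJacobian (b i) (c i) w + ∑ i, ∑ j, if i < j then
    ((rho (overB (b i) (b j)) 0 (overC (b i) (c i) (b j) (c j)) : ℤ) - rho 0 (b j) (c j)) else 0

/-- The number of the affine points of the curve `Y² = g(X)` over the extension of degree two of the finite
field `F`. -/
noncomputable def pointsSquare (F : Type) [Field F] (g : F[X]) : ℕ :=
  Nat.card {P : AlgebraicClosure F × AlgebraicClosure F //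
    P.1 ^ (Nat.card F ^ 2) = P.1 ∧ P.2 ^ (Nat.card F ^ 2) = P.2 ∧ P.2 ^ 2 = aeval P.1 g}

/-- The trace of the square of the Frobenius on `H¹` of the curve `Y² = g(X)` over the finite field `F` with
`q` elements, for a monic polynomial `g` of odd degree without multiple roots: `q²` minus the number of
the affine points over the field with `q²` elements. -/
noncomputable def traceSquare (F : Type) [Field F] (g : F[X]) : ℝ :=
  (Nat.card F : ℝ) ^ 2 - pointsSquare F g

/-- The trace of the Frobenius on `H² = ∧² H¹` of the product of the Jacobians of the curves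
`Y² = p_i(X)`, `i < m`. -/
noncomputable def traceTwo {m : ℕ} (F : Type) [Field F] (p : Fin m → F[X]) : ℝ :=
  ((∑ i, traceOne F (p i)) ^ 2 - ∑ i, traceSquare F (p i)) / 2

/-- The average `𝔅_v = q_v^{-n} ∑ b(fibre)` of the traces on `H²` of the products of the Jacobians of the
curves `Y² = G_i(X)` over the points of `Spec R` above `v`, rational over the residue field of `v`, at which
`N` does not vanish. -/
noncomputable def average {k R : Type} [Field k] [NumberField k] [CommRing R] [Algebra (𝓞 k) R] {m : ℕ}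
    (G : Fin m → R[X]) (N : R) (n : ℕ) (v : HeightOneSpectrum (𝓞 k)) : ℝ :=
  ((Nat.card (𝓞 k ⧸ v.asIdeal) : ℝ) ^ n)⁻¹ *
    ∑ᶠ φ : {φ : R →+* 𝓞 k ⧸ v.asIdeal //
      φ.comp (algebraMap (𝓞 k) R) = Ideal.Quotient.mk v.asIdeal ∧ φ N ≠ 0},
        traceTwo (𝓞 k ⧸ v.asIdeal) fun i => (G i).map φ.1

theorem curve_eq {M K : Type} [Field M] [Field K] [Algebra M K] (b c : M[X]) (w : K) :
    ProductsOfPencils.curve 0 b c w = curve b c w := by
  unfold ProductsOfPencils.curve curve
  rw [Polynomial.map_zero, mul_zero, add_zero]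

theorem defect_eq {M : Type} [Field M] {b : M[X]} (hb : b ≠ 0) :
    (∃ (a : M) (s : M[X]), b = C a * s ^ 2) ↔ IsSquare (C b.leadingCoeff⁻¹ * b) := by
  have hl : b.leadingCoeff ≠ 0 := leadingCoeff_ne_zero.2 hb
  constructor
  · rintro ⟨a, s, h⟩
    have h1 : b.leadingCoeff = a * s.leadingCoeff ^ 2 := by
      rw [h, leadingCoeff_mul, leadingCoeff_C, leadingCoeff_pow]
    have ha : a ≠ 0 := by
      rintro rfl
      rw [zero_mul] at h1
      exact hl h1
    have hs : s.leadingCoeff ≠ 0 := by
      intro h2
      rw [h2, zero_pow two_ne_zero, mul_zero] at h1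
      exact hl h1
    refine ⟨C s.leadingCoeff⁻¹ * s, ?_⟩
    rw [h1, mul_inv, C_mul, ← inv_pow, C_pow]
    conv_lhs => rw [h]
    have h3 : (C a⁻¹ * C a : M[X]) = 1 := by
      rw [← C_mul, inv_mul_cancel₀ ha, C_1]
    linear_combination (C s.leadingCoeff⁻¹) ^ 2 * s ^ 2 * h3
  · rintro ⟨s, h⟩
    refine ⟨b.leadingCoeff, s, ?_⟩
    rw [sq, ← h, ← mul_assoc, ← C_mul, mul_inv_cancel₀ hl, C_1, one_mul]

theorem square_sum {m : ℕ} (a : Fin m → ℝ) :
    (∑ i, a i) ^ 2 = ∑ i, a i ^ 2 + 2 * ∑ i, ∑ j, if i < j then a i * a j else 0 := by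
  have h1 : ∀ i j : Fin m, a i * a j = (if i = j then a i * a j else 0) +
      ((if i < j then a i * a j else 0) + if j < i then a i * a j else 0) := by
    intro i j
    rcases lt_trichotomy i j with h | h | h
    · rw [if_neg h.ne, if_pos h, if_neg h.le.not_gt]
      ring
    · rw [if_pos h, if_neg h.not_lt, if_neg h.symm.not_lt]
      ring
    · rw [if_neg h.ne', if_neg h.le.not_gt, if_pos h]
      ring
  rw [sq, Finset.sum_mul_sum, Finset.sum_congr rfl fun i _ => Finset.sum_congr rfl fun j _ => h1 i j]
  simp only [Finset.sum_add_distrib]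
  have h2 : ∑ i, ∑ j, (if i = j then a i * a j else 0) = ∑ i, a i ^ 2 := by
    refine Finset.sum_congr rfl fun i _ => ?_
    rw [Finset.sum_ite_eq, if_pos (Finset.mem_univ _), sq]
  have h3 : ∑ i, ∑ j, (if j < i then a i * a j else 0) = ∑ i, ∑ j, if i < j then a i * a j else 0 := by
    rw [Finset.sum_comm]
    refine Finset.sum_congr rfl fun i _ => Finset.sum_congr rfl fun j _ => ?_
    rw [mul_comm]
  rw [h2, h3]
  ring

/-- **The residue formula for the products of the Jacobians of the hyperelliptic curves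
`Y² = c_i(X) + w b_i(X)` over `M(w)`, for an arbitrary finitely generated field `M` of characteristic zero and
for every model.** -/
theorem result {k : Type} [Field k] [NumberField k] {M : Type} [Field M] [CharZero M] [Algebra k M]
    (hM : ∃ S : Finset M, Subfield.closure (S : Set M) = ⊤) {d : ℕ} (hd : Algebra.trdeg ℚ M = d)
    {K : Type} [Field K] [CharZero K] [Algebra M K] {w : K} (hw : Transcendental M w)
    (hK : IntermediateField.adjoin M {w} = ⊤)
    {m : ℕ} {g : Fin m → ℕ} {b c : Fin m → M[X]} (hc : ∀ i, (c i).Monic)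
    (hcd : ∀ i, (c i).natDegree = 2 * g i + 1) (hb : ∀ i, (b i).natDegree < 2 * g i + 1)
    (hb0 : ∀ i, b i ≠ 0) (hs : ∀ i, (curve (b i) (c i) w).Separable) :
    -- the algebraic side: the rank of `J_j(K)`
    (∀ j, ClassGroupHasRank (curve (b j) (c j) w) (rho 0 (b j) (c j))) ∧
    -- the algebraic side: the rank of `J_j(K(C_i))`, for the function field `K(C_i)` of `C_i`
    (∀ i j, ∀ (K₁ : Type) [Field K₁] [Algebra K K₁] (x y : K₁),
      IsFunctionField (curve (b i) (c i) w) x y →
        ClassGroupHasRank ((curve (b j) (c j) w).map (algebraMap K K₁))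
          (rho (overB (b i) (b j)) 0 (overC (b i) (c i) (b j) (c j)))) ∧
    -- the analytic side: the residue at `s = 2` of the series of the `𝔅_v`, for every model
    ∀ (R : Type) [CommRing R] [IsDomain R] [Algebra.FiniteType ℤ R] [Algebra R K]
      [IsFractionRing R K] [Algebra (𝓞 k) R],
      (∀ z : 𝓞 k, algebraMap R K (algebraMap (𝓞 k) R z) = algebraMap M K (algebraMap k M z)) →
      ∀ G : Fin m → R[X], (∀ i, (G i).Monic) →
        (∀ i, (G i).map (algebraMap R K) = curve (b i) (c i) w) →
          ∀ N : R, N ≠ 0 → ∀ S : Finset (HeightOneSpectrum (𝓞 k)),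
            HasResidue S (fun v => average G N (d + 1) v) 2 (rankNS b c w) := by
  classical
  obtain ⟨-, -, h1, h2, -, h4⟩ := ProductsOfPencils.result (k := k) hM hd hw hK hc hcd hb hb0
    (fun i => by rw [curve_eq]; exact hs i)
  refine ⟨fun j => by rw [← curve_eq]; exact h1 j, fun i j K₁ _ _ x y h => by
    rw [← curve_eq]
    exact h2 i j K₁ x y (by rw [curve_eq]; exact h), ?_⟩
  intro R _ _ _ _ _ _ hk G hG hGK N hN S
  have hcK : CharZero (AlgebraicClosure K) :=
    charZero_of_injective_algebraMap (algebraMap K (AlgebraicClosure K)).injective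
  have hGal : IsGalois K (AlgebraicClosure K) := inferInstance
  -- the products of different curves
  have r1 := h4 R hk G hG (fun i => by rw [hGK, curve_eq]) N hN S
  -- the curves
  have r2 : ∀ i, HasResidue S (fun v => ProductsOfPencils.average (fun _ : Fin 1 => G i) N (d + 1) v)
      2 1 := by
    intro i
    obtain ⟨-, -, -, -, -, h5⟩ := ProductsOfPencils.result (k := k) hM hd hw hK (m := 1)
      (g := fun _ => g i) (b := fun _ => b i) (c := fun _ => c i) (fun _ => hc i) (fun _ => hcd i)
      (fun _ => hb i) (fun _ => hb0 i) (fun _ => by rw [curve_eq]; exact hs i)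
    have h6 := h5 R hk (fun _ => G i) (fun _ => hG i) (fun _ => by rw [hGK, curve_eq]) N hN S
    have h7 : (ProductsOfPencils.rankNS (m := 1) (fun _ => b i) (fun _ => c i) : ℝ) = 1 := by
      unfold ProductsOfPencils.rankNS
      simp
    rw [h7] at h6
    exact h6
  have r3 : ∀ i, HasResidue S (fun v => (Ideal.absNorm v.asIdeal : ℝ) *
      Pool.Agent.R410.NG.avg Pool.Agent.Helper94.KM.wJ (fun _ : Unit => G i) N (d + 1) v) 2
      (rankJacobian (b i) (c i) w) := by
    intro i
    have h5 := Pool.Agent.Helper94.KM.residue_J_pencil (k := k) (AlgebraicClosure K) hM hd hw hK (hc i)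
      (by rw [hcd i]; exact ⟨g i, rfl⟩) (hb0 i) (by rw [hcd i]; exact hb i) (hG i) (hGK i) hN S
    have h6 : Pool.Agent.Helper94.KM.rkJ (AlgebraicClosure K) (b i) (curve (b i) (c i) w) =
        rankJacobian (b i) (c i) w := by
      unfold Pool.Agent.Helper94.KM.rkJ rankJacobian squareDefect
      have h7 := defect_eq (hb0 i)
      by_cases h8 : IsSquare (C (b i).leadingCoeff⁻¹ * b i)
      · rw [if_pos h8, if_pos (h7.2 h8)]
        rfl
      · rw [if_neg h8, if_neg (fun h => h8 (h7.1 h))]
        rfl
    rw [← h6]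
    exact h5
  have r4 := Pool.Agent.Helper94.KM.residue_sum Finset.univ r1 fun i _ =>
    Pool.Agent.R410.NG.residue_add (r3 i) (Pool.Agent.Helper94.KM.residue_smul (r2 i) (-1))
  have e1 : ((ProductsOfPencils.rankNS b c : ℤ) : ℝ) + ∑ i, (((rankJacobian (b i) (c i) w : ℤ) : ℝ) +
      -1 * 1) = ((rankNS b c w : ℤ) : ℝ) := by
    unfold rankNS ProductsOfPencils.rankNS
    push_cast
    rw [Finset.sum_add_distrib, Finset.sum_const, Finset.card_univ, Fintype.card_fin, nsmul_eq_mul]
    ring
  rw [e1] at r4
  have e2 : (fun v : HeightOneSpectrum (𝓞 k) => ProductsOfPencils.average G N (d + 1) v +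
      ∑ i, ((Ideal.absNorm v.asIdeal : ℝ) * Pool.Agent.R410.NG.avg Pool.Agent.Helper94.KM.wJ
        (fun _ : Unit => G i) N (d + 1) v +
        -1 * ProductsOfPencils.average (fun _ : Fin 1 => G i) N (d + 1) v)) =
      fun v => average G N (d + 1) v := by
    funext v
    have hq0 : (Nat.card (𝓞 k ⧸ v.asIdeal) : ℝ) ≠ 0 := by
      have := Pool.Agent.H341R2.finite_v v
      exact_mod_cast (Nat.card_pos (α := 𝓞 k ⧸ v.asIdeal)).ne'
    have hqn : (Ideal.absNorm v.asIdeal : ℝ) = (Nat.card (𝓞 k ⧸ v.asIdeal) : ℝ) := rfl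
    have hfv := Pool.Agent.H341R2.finite_v v
    have hfin : Finite (R →+* 𝓞 k ⧸ v.asIdeal) := inferInstance
    let _ : Fintype {φ : R →+* 𝓞 k ⧸ v.asIdeal //
      φ.comp (algebraMap (𝓞 k) R) = Ideal.Quotient.mk v.asIdeal ∧ φ N ≠ 0} := Fintype.ofFinite _
    have key : ∀ (H : Type) [Fintype H] (A q : ℝ) (f : H → ℝ) (u z : Fin m → H → ℝ),
        A * ∑ φ, f φ + ∑ i, (q * (A * ∑ φ, u i φ) + -1 * (A * ∑ φ, z i φ)) =
          A * ∑ φ, (f φ + ∑ i, (q * u i φ - z i φ)) := by
      intro H _ A q f u z
      have h1 : ∑ φ, (f φ + ∑ i, (q * u i φ - z i φ)) =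
          ∑ φ, f φ + ∑ i, ∑ φ, (q * u i φ - z i φ) := by
        rw [Finset.sum_add_distrib, Finset.sum_comm (s := Finset.univ (α := H))]
      rw [h1, mul_add, Finset.mul_sum Finset.univ (fun i => ∑ φ, (q * u i φ - z i φ)) A]
      congr 1
      refine Finset.sum_congr rfl fun i _ => ?_
      rw [Finset.sum_sub_distrib, ← Finset.mul_sum]
      ring
    unfold ProductsOfPencils.average average Pool.Agent.R410.NG.avg Pool.Agent.R410.NG.sR
    simp only [finsum_eq_sum_of_fintype]
    rw [hqn, key]
    congr 1
    refine Finset.sum_congr rfl fun φ _ => ?_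
    unfold ProductsOfPencils.traceTwo traceTwo
    rw [square_sum]
    have e3 : ∀ i, (Nat.card (𝓞 k ⧸ v.asIdeal) : ℝ) * Pool.Agent.Helper94.KM.wJ (𝓞 k ⧸ v.asIdeal)
        (fun _ : Unit => (G i).map φ.1) = (traceOne (𝓞 k ⧸ v.asIdeal) ((G i).map φ.1) ^ 2 -
          traceSquare (𝓞 k ⧸ v.asIdeal) ((G i).map φ.1)) / 2 := fun i => mul_inv_cancel_left₀ hq0 _
    simp only [e3]
    simp only [Finset.sum_sub_distrib, ← Finset.sum_div]
    simp
    ring
  rw [e2] at r4
  exact r4

end Pool.Agent.Results.MP_6090f9_nt.ProductsOfJacobians
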