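import Pool.Agent.Helper94.KM.N3
import Pool.Agent.Results.MP_6090f9_nt.ProductsOfJacobians

/-!
# The residue formula for the Kummer varieties of the products of Jacobians of linear pencils

Let `M` be a finitely generated field of characteristic zero and of transcendence degree `d` over `ℚ`,
which contains the number field `k`, and let `K = M(w)`.  For `i < m` let `C_i : Y² = F_i(X)`,
`F_i = c_i + w b_i`, be a hyperelliptic curve over `K`, where `b_i, c_i ∈ M[X]`, `c_i` is monic of degree
`2 g_i + 1`, `g_i ≥ 1`, `deg b_i ≤ 2 g_i`, `b_i ≠ 0` and `F_i` has no multiple zeros.  Let `J_i` be the Jacobian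
of `C_i`, and let `A = J_1 × ... × J_m`, an abelian variety of dimension `g = g_1 + ... + g_m`.  Suppose that
`g ≥ 2`, and let `X` be the Kummer variety of `A`: the blow-up of `A / ±1` at the images of the `2^{2g}` points
of order at most `2`.  It is smooth and projective; if `g = 2`, then it is a K3 surface: the Kummer surface of
the Jacobian of a curve of genus two with a rational Weierstrass point, or of the product of two elliptic
curves.

The points of order at most `2`.  A point of `J_i[2]` is the class of the divisor
`∑_{x ∈ S} (x, 0) - |S| ∞` for a set `S` of zeros of `F_i`, and `S` is unique if `|S| ≤ g_i`.  Thus `J_i[2]` is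
the set of the monic divisors `D = ∏_{x ∈ S} (X - x)` of `F_i` of the degrees `≤ g_i` over the algebraic closure
of `K`, and over a finite field `F` the points of `J_i[2]` which are rational over `F` are the monic divisors
over `F`.

The algebraic side.  `NS(X/K) ⊗ ℚ` is the sum of `NS(A/K) ⊗ ℚ` and of the space with the basis of the orbits of
the Galois group of `K` on `A[2]` (the exceptional divisors).  For the rank of `NS(A/K)` see
`ProductsOfJacobians`.

The analytic side.  `H²(X) = ∧² H¹(A) ⊕ ⨁_{A[2]} ℚ_ℓ(-1)`.  So the trace of the Frobenius on `H²` of a fibre of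
good reduction over the field with `q` elements is the trace on `∧² H¹(A)` plus `q` times the number of the
rational points in `A[2]`.  We prove: for every model of `K` and of the curves over the integers of `k`, the
series of the averages `𝔅_v` of these traces has a residue at `s = 2`, and it is the rank of `NS(A/K)` (in the
form of `ProductsOfJacobians`) plus the number of the orbits of the Galois group of `K` on `A[2]`.
-/

set_option autoImplicit false

namespace Pool.Agent.Results.MP_6090f9_nt.KummerOfJacobians

open Polynomial NumberField IsDedekindDomain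
open Pool.Agent.Y707.PR (HasResidue)
open Pool.Agent.Results.MP_6090f9_nt.ProductsOfPencils (ClassGroupHasRank IsFunctionField rho overB overC)
open Pool.Agent.Results.MP_6090f9_nt.ProductsOfJacobians (curve rankNS)

/-- The points of order at most `2` of the product of the Jacobians of the curves `Y² = p_i(X)`, `i < m`, of
the genera `g_i`: the tuples of monic divisors of the `p_i` of the degrees `≤ g_i`. -/
abbrev TwoTorsion {m : ℕ} (g : Fin m → ℕ) {F : Type} [Field F] (p : Fin m → F[X]) : Type :=
  {D : Fin m → F[X] // ∀ i, (D i).Monic ∧ (D i).natDegree ≤ g i ∧ D i ∣ p i}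

/-- Two points of order at most `2` over the algebraic closure of `K` are conjugate over `K`. -/
def Conjugate {m : ℕ} (g : Fin m → ℕ) {K : Type} [Field K] (F : Fin m → K[X])
    (D D' : TwoTorsion g fun i => (F i).map (algebraMap K (AlgebraicClosure K))) : Prop :=
  ∃ σ : AlgebraicClosure K ≃ₐ[K] AlgebraicClosure K,
    ∀ i, (D.1 i).map (σ : AlgebraicClosure K →+* AlgebraicClosure K) = D'.1 i

/-- The number of the orbits of the Galois group of `K` on the points of order at most `2`. -/
noncomputable def torsionOrbits {m : ℕ} (g : Fin m → ℕ) {K : Type} [Field K] (F : Fin m → K[X]) : ℕ :=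
  Nat.card (Quot (Conjugate g F))

/-- The trace of the Frobenius on `H²` of the Kummer variety of the product of the Jacobians of the curves
`Y² = p_i(X)`, `i < m`. -/
noncomputable def trace {m : ℕ} (g : Fin m → ℕ) (F : Type) [Field F] (p : Fin m → F[X]) : ℝ :=
  ProductsOfJacobians.traceTwo F p + (Nat.card F : ℝ) * Nat.card (TwoTorsion g p)

/-- The average `𝔅_v = q_v^{-n} ∑ b(fibre)` of the traces on `H²` of the Kummer varieties over the points of
`Spec R` above `v`, rational over the residue field of `v`, at which `N` does not vanish. -/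
noncomputable def average {k R : Type} [Field k] [NumberField k] [CommRing R] [Algebra (𝓞 k) R] {m : ℕ}
    (g : Fin m → ℕ) (G : Fin m → R[X]) (N : R) (n : ℕ) (v : HeightOneSpectrum (𝓞 k)) : ℝ :=
  ((Nat.card (𝓞 k ⧸ v.asIdeal) : ℝ) ^ n)⁻¹ *
    ∑ᶠ φ : {φ : R →+* 𝓞 k ⧸ v.asIdeal //
      φ.comp (algebraMap (𝓞 k) R) = Ideal.Quotient.mk v.asIdeal ∧ φ N ≠ 0},
        trace g (𝓞 k ⧸ v.asIdeal) fun i => (G i).map φ.1

/-- **The residue formula for the Kummer varieties of the products of the Jacobians of the hyperelliptic
curves `Y² = c_i(X) + w b_i(X)` over `M(w)`, for an arbitrary finitely generated field `M` of characteristic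
zero and for every model.** -/
theorem result {k : Type} [Field k] [NumberField k] {M : Type} [Field M] [CharZero M] [Algebra k M]
    (hM : ∃ S : Finset M, Subfield.closure (S : Set M) = ⊤) {d : ℕ} (hd : Algebra.trdeg ℚ M = d)
    {K : Type} [Field K] [CharZero K] [Algebra M K] {w : K} (hw : Transcendental M w)
    (hK : IntermediateField.adjoin M {w} = ⊤)
    {m : ℕ} {g : Fin m → ℕ} {b c : Fin m → M[X]} (hc : ∀ i, (c i).Monic)
    (hcd : ∀ i, (c i).natDegree = 2 * g i + 1) (hb : ∀ i, (b i).natDegree < 2 * g i + 1)
    (hb0 : ∀ i, b i ≠ 0) (hs : ∀ i, (curve (b i) (c i) w).Separable) :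
    -- the number of the points of order at most `2`
    Nat.card (TwoTorsion g fun i => (curve (b i) (c i) w).map (algebraMap K (AlgebraicClosure K))) =
      2 ^ (2 * ∑ i, g i) ∧
    -- the rank of `J_j(K)`
    (∀ j, ClassGroupHasRank (curve (b j) (c j) w) (rho 0 (b j) (c j))) ∧
    -- the rank of `J_j(K(C_i))`, for the function field `K(C_i)` of `C_i`
    (∀ i j, ∀ (K₁ : Type) [Field K₁] [Algebra K K₁] (x y : K₁),
      IsFunctionField (curve (b i) (c i) w) x y →
        ClassGroupHasRank ((curve (b j) (c j) w).map (algebraMap K K₁))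
          (rho (overB (b i) (b j)) 0 (overC (b i) (c i) (b j) (c j)))) ∧
    -- the residue at `s = 2` of the series of the `𝔅_v`, for every model
    ∀ (R : Type) [CommRing R] [IsDomain R] [Algebra.FiniteType ℤ R] [Algebra R K]
      [IsFractionRing R K] [Algebra (𝓞 k) R],
      (∀ z : 𝓞 k, algebraMap R K (algebraMap (𝓞 k) R z) = algebraMap M K (algebraMap k M z)) →
      ∀ G : Fin m → R[X], (∀ i, (G i).Monic) →
        (∀ i, (G i).map (algebraMap R K) = curve (b i) (c i) w) →
          ∀ N : R, N ≠ 0 → ∀ S : Finset (HeightOneSpectrum (𝓞 k)),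
            HasResidue S (fun v => average g G N (d + 1) v) 2
              (rankNS b c w + torsionOrbits g fun i => curve (b i) (c i) w) := by
  classical
  have hbKdeg : ∀ i, (C w * (b i).map (algebraMap M K)).degree <
      ((c i).map (algebraMap M K)).degree := by
    intro i
    rw [(hc i).degree_map, degree_eq_natDegree (hc i).ne_zero]
    refine lt_of_le_of_lt (Pool.Agent.Helper94.KM.deg_C_mul_le _ _) ?_
    rw [degree_map, degree_eq_natDegree (hb0 i), hcd i]
    exact_mod_cast hb i
  have hFm : ∀ i, (curve (b i) (c i) w).Monic := fun i => ((hc i).map _).add_of_left (hbKdeg i)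
  have hFd : ∀ i, (curve (b i) (c i) w).natDegree = 2 * g i + 1 := by
    intro i
    unfold curve
    rw [natDegree_add_eq_left_of_degree_lt (hbKdeg i), (hc i).natDegree_map, hcd i]
  obtain ⟨h1, h2, h4⟩ := ProductsOfJacobians.result (k := k) hM hd hw hK hc hcd hb hb0 hs
  refine ⟨Pool.Agent.Helper94.KM.card_TD (fun i => (hFm i).map _) (fun i => (hs i).map)
    fun i => by rw [natDegree_map, hFd i], h1, h2, ?_⟩
  intro R _ _ _ _ _ _ hk G hG hGK N hN S
  have htr : Algebra.trdeg ℚ K = (d + 1 : ℕ) := Pool.Agent.R410.NG.trdeg_line hd hw hK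
  have r1 := h4 R hk G hG hGK N hN S
  have r2 := Pool.Agent.Helper94.KM.residue_TD (k := k) (AlgebraicClosure K) g
    (Pool.Agent.R410.NG.fg_line hM hK) htr hG hN S
  have r3 := Pool.Agent.R410.NG.residue_add r1 r2
  have e1 : (Nat.card (Quot (Pool.Agent.Helper94.KM.TConj g (AlgebraicClosure K)
      fun i => (G i).map (algebraMap R K))) : ℝ) = torsionOrbits g fun i => curve (b i) (c i) w := by
    have h5 : (fun i => (G i).map (algebraMap R K)) = fun i => curve (b i) (c i) w := funext hGK
    exact congrArg (fun f : Fin m → K[X] => (Nat.card (Quot (Pool.Agent.Helper94.KM.TConj g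
      (AlgebraicClosure K) f)) : ℝ)) h5
  rw [e1] at r3
  have e2 : (fun v : HeightOneSpectrum (𝓞 k) => ProductsOfJacobians.average G N (d + 1) v +
      (Ideal.absNorm v.asIdeal : ℝ) * Pool.Agent.R410.NG.avg (Pool.Agent.Helper94.KM.wD g) G N
        (d + 1) v) = fun v => average g G N (d + 1) v := by
    funext v
    have hqn : (Ideal.absNorm v.asIdeal : ℝ) = (Nat.card (𝓞 k ⧸ v.asIdeal) : ℝ) := rfl
    have hfv := Pool.Agent.H341R2.finite_v v
    have hfin : Finite (R →+* 𝓞 k ⧸ v.asIdeal) := inferInstance
    have key : ∀ (H : Type) [Finite H] (f u : H → ℝ) (A q : ℝ),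
        A * ∑ᶠ φ, f φ + q * (A * ∑ᶠ φ, u φ) = A * ∑ᶠ φ, (f φ + q * u φ) := by
      intro H _ f u A q
      let _ : Fintype H := Fintype.ofFinite _
      rw [finsum_eq_sum_of_fintype, finsum_eq_sum_of_fintype, finsum_eq_sum_of_fintype,
        Finset.sum_add_distrib, ← Finset.mul_sum]
      ring
    unfold ProductsOfJacobians.average average Pool.Agent.R410.NG.avg Pool.Agent.R410.NG.sR
    rw [hqn, key]
    rfl
  rw [e2] at r3
  exact r3

end Pool.Agent.Results.MP_6090f9_nt.KummerOfJacobians
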