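import Pool.Agent.Helper94.KM.Node
import Pool.Agent.Results.MP_6090f9_nt.ProductsOfPencils

/-!
# The residue formula for the Kummer varieties of the products of hyperelliptic curves of linear pencils

Let `M` be a finitely generated field of characteristic zero and of transcendence degree `d` over `ℚ`,
which contains the number field `k`, and let `K = M(w)`: the function field of a variety over `k` of
dimension `d + 1`.  Let `C_i : Y² = F_i(X)`, for `i < m` and `m ≥ 2`, be hyperelliptic curves over `K` of the
genera `g_i`, where `F_i = c_i + w b_i` with `b_i, c_i ∈ M[X]`, `c_i` monic of degree `2 g_i + 1`,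
`deg b_i ≤ 2 g_i` and `b_i ≠ 0`.  Let `ι` be the involution `(P_1, …, P_m) ↦ (ι P_1, …, ι P_m)` of
`C_1 × … × C_m`, where `ι (x, y) = (x, -y)`.  Its fixed points are the `m`-tuples of the points at infinity
and of the points `(x, 0)`, `F_i(x) = 0`.  Let `X` be the quotient of the blow-up of `C_1 × … × C_m` at these
points by the involution: a smooth projective variety, the minimal resolution of the quotient
`(C_1 × … × C_m) / ι`, whose singularities, the nodes, are the images of the fixed points.  If all the
genera are `1` then `X` is the Kummer variety of the abelian variety `C_1 × … × C_m`, and for `m = 2` it is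
a Kummer surface, a K3 surface.

The cohomology.  `ι` acts trivially on `H²(C_1 × … × C_m) = ℚ_ℓ(-1)^m ⊕ ⨁_{i < j} H¹(C_i) ⊗ H¹(C_j)`, and
`H²(X)` is the sum of this space and of `ℚ_ℓ(-1)` for each node.  Thus the trace of the Frobenius on `H²` of
a fibre over the field with `q` elements is `m q + ∑_{i < j} a_i a_j + q n`, where `a_i` are the traces on `H¹`
of the curves and `n` is the number of the rational nodes; and the rank of `NS(X/K)` is the rank
`m + ∑_{i < j} rank Hom_K(J_i, J_j)` of the Néron-Severi group of the product, where `J_i` are the Jacobians,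
plus the number of the orbits of the nodes over the algebraic closure of `K` under the Galois group.  Here
`Hom_K(J_i, J_j) = J_j(K(C_i)) / J_j(K)`, and for every field `K₁ ⊇ K` the group `J_j(K₁)` is the class group
of the ring `K₁[X, Y] / (Y² - F_j(X))` (see the starting result `ProductsOfPencils`).

**Theorem.**  For all these families the rank of `NS(X/K)` is finite, and for every model of `K` and of the
curves over the integers of `k` the series of the averages `𝔅_v` of the traces of the Frobenius on `H²` of
the fibres has the residue `rank NS(X/K)` at `s = 2`.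
-/

set_option autoImplicit false

namespace Pool.Agent.Results.MP_6090f9_nt.KummerVarieties

open Polynomial NumberField IsDedekindDomain
open Pool.Agent.Y707.PR (HasResidue)
open Pool.Agent.Results.MP_6090f9_nt.ProductsOfPencils (curve ClassGroupHasRank IsFunctionField
  traceTwo)

/-- The nodes of `X` over the algebraic closure of `K`: the tuples `P` in which `P i` is the point at
infinity (`none`) or the point `(x, 0)` of the curve `Y² = F_i(X)` (`some x`). -/
abbrev Node {K : Type} [Field K] {m : ℕ} (F : Fin m → K[X]) : Type :=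
  {P : Fin m → Option (AlgebraicClosure K) // ∀ i, ∀ x ∈ P i, aeval x (F i) = 0}

/-- Two nodes are conjugate over `K`. -/
def Conjugate {K : Type} [Field K] {m : ℕ} (F : Fin m → K[X]) (P Q : Node F) : Prop :=
  ∃ σ : AlgebraicClosure K ≃ₐ[K] AlgebraicClosure K, ∀ i, (P.1 i).map σ = Q.1 i

/-- The number of the orbits of the nodes under the Galois group of `K`. -/
noncomputable def orbits {K : Type} [Field K] {m : ℕ} (F : Fin m → K[X]) : ℕ :=
  Nat.card (Quot (Conjugate F))

/-- `n = m + ∑_{i < j} (r_{ij} - r_j) + s`, where `r_j` is the rank of the class group of the ring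
`K[X, Y] / (Y² - F_j(X))`, that is, of the group `J_j(K)`, `r_{ij}` is the rank of the class group of this
ring over the function field `K(C_i)`, that is, of the group `J_j(K(C_i))`, and `s` is the number of
the orbits of the nodes: `n` is the rank of `NS(X/K)`. -/
def IsRankNS {K : Type} [Field K] {m : ℕ} (F : Fin m → K[X]) (n : ℤ) : Prop :=
  ∃ (r₁ : Fin m → ℕ) (r₂ : Fin m → Fin m → ℕ),
    (∀ j, ClassGroupHasRank (F j) (r₁ j)) ∧
    (∀ i, ∃ (K₁ : Type) (_ : Field K₁) (_ : Algebra K K₁) (x y : K₁), IsFunctionField (F i) x y) ∧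
    (∀ i j, ∀ (K₁ : Type) [Field K₁] [Algebra K K₁] (x y : K₁), IsFunctionField (F i) x y →
      ClassGroupHasRank ((F j).map (algebraMap K K₁)) (r₂ i j)) ∧
    n = m + (∑ i, ∑ j, if i < j then ((r₂ i j : ℤ) - r₁ j) else 0) + orbits F

/-- The trace of the Frobenius on `H²` of the fibre of the curves `Y² = p_i(X)`, `i < m`, over the finite
field `F` with `q` elements: `m q + ∑_{i < j} a_i a_j` plus `q` times the number of the rational nodes. -/
noncomputable def trace {m : ℕ} (F : Type) [Field F] (p : Fin m → F[X]) : ℝ :=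
  traceTwo F p +
    (Nat.card F : ℝ) * Nat.card {P : Fin m → Option F // ∀ i, ∀ x ∈ P i, (p i).eval x = 0}

/-- The average `𝔅_v = q_v^{-n} ∑ b(fibre)` of the traces on `H²` of the fibres of the Kummer variety of the
curves `Y² = G_i(X)` over the points of `Spec R` above `v`, rational over the residue field of `v`, at
which `N` does not vanish. -/
noncomputable def average {k R : Type} [Field k] [NumberField k] [CommRing R] [Algebra (𝓞 k) R] {m : ℕ}
    (G : Fin m → R[X]) (N : R) (n : ℕ) (v : HeightOneSpectrum (𝓞 k)) : ℝ :=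
  ((Nat.card (𝓞 k ⧸ v.asIdeal) : ℝ) ^ n)⁻¹ *
    ∑ᶠ φ : {φ : R →+* 𝓞 k ⧸ v.asIdeal //
      φ.comp (algebraMap (𝓞 k) R) = Ideal.Quotient.mk v.asIdeal ∧ φ N ≠ 0},
        trace (𝓞 k ⧸ v.asIdeal) fun i => (G i).map φ.1

/-- **The residue formula for the Kummer varieties of the products of the hyperelliptic curves
`Y² = c_i(X) + w b_i(X)` over `M(w)`, for an arbitrary finitely generated field `M` of characteristic zero and
for every model.** -/
theorem result {k : Type} [Field k] [NumberField k] {M : Type} [Field M] [CharZero M] [Algebra k M]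
    (hM : ∃ S : Finset M, Subfield.closure (S : Set M) = ⊤) {d : ℕ} (hd : Algebra.trdeg ℚ M = d)
    {K : Type} [Field K] [CharZero K] [Algebra M K] {w : K} (hw : Transcendental M w)
    (hK : IntermediateField.adjoin M {w} = ⊤)
    {m : ℕ} (_hm : 2 ≤ m) {g : Fin m → ℕ} {b c : Fin m → M[X]} (hc : ∀ i, (c i).Monic)
    (hcd : ∀ i, (c i).natDegree = 2 * g i + 1) (hb : ∀ i, (b i).natDegree < 2 * g i + 1)
    (hb0 : ∀ i, b i ≠ 0) (hs : ∀ i, (curve 0 (b i) (c i) w).Separable) :
    ∃ n : ℤ, IsRankNS (fun i => curve 0 (b i) (c i) w) n ∧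
      ∀ (R : Type) [CommRing R] [IsDomain R] [Algebra.FiniteType ℤ R] [Algebra R K]
        [IsFractionRing R K] [Algebra (𝓞 k) R],
        (∀ z : 𝓞 k, algebraMap R K (algebraMap (𝓞 k) R z) = algebraMap M K (algebraMap k M z)) →
        ∀ G : Fin m → R[X], (∀ i, (G i).Monic) →
          (∀ i, (G i).map (algebraMap R K) = curve 0 (b i) (c i) w) →
            ∀ N : R, N ≠ 0 → ∀ S : Finset (HeightOneSpectrum (𝓞 k)),
              HasResidue S (fun v => average G N (d + 1) v) 2 n := by
  classical
  obtain ⟨h1, h2, h3, h4, h5, h6⟩ := Pool.Agent.Results.MP_6090f9_nt.ProductsOfPencils.result (k := k)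
    hM hd hw hK hc hcd hb hb0 hs
  refine ⟨Pool.Agent.Results.MP_6090f9_nt.ProductsOfPencils.rankNS b c +
    orbits fun i => curve 0 (b i) (c i) w, ⟨_, _, h3, h5, fun i j => h4 i j, rfl⟩, ?_⟩
  intro R _ _ _ _ _ _ hk G hG hGK N hN S
  have r1 := h6 R hk G hG hGK N hN S
  have r2 := Pool.Agent.R410.NG.residue_shift (Pool.Agent.Helper94.KM.residue_nodes
    (Ω := AlgebraicClosure K) (k := k) (Pool.Agent.R410.NG.fg_line hM hK) h1 G hG
    (fun i => by rw [hGK]; exact hs i) hN S)
  have r3 := Pool.Agent.R410.NG.residue_add r1 r2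
  have hfun : (fun v : HeightOneSpectrum (𝓞 k) =>
      Pool.Agent.Results.MP_6090f9_nt.ProductsOfPencils.average G N (d + 1) v +
        (Ideal.absNorm v.asIdeal : ℝ) *
          Pool.Agent.R410.NG.avg (Pool.Agent.Helper94.KM.wN (Fin m)) G N (d + 1) v) =
      fun v => average G N (d + 1) v := by
    funext v
    have hfv := Pool.Agent.H341R2.finite_v v
    have hfin : Finite (R →+* 𝓞 k ⧸ v.asIdeal) := inferInstance
    have hqn : (Ideal.absNorm v.asIdeal : ℝ) = (Nat.card (𝓞 k ⧸ v.asIdeal) : ℝ) := rfl
    unfold Pool.Agent.Results.MP_6090f9_nt.ProductsOfPencils.average Pool.Agent.R410.NG.avg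
      Pool.Agent.R410.NG.sR average
    rw [hqn, mul_left_comm, ← mul_add, mul_finsum, ← finsum_add_distrib (Set.toFinite _) (Set.toFinite _)]
    rfl
  rw [hfun] at r3
  have hrank : ((Pool.Agent.Results.MP_6090f9_nt.ProductsOfPencils.rankNS b c +
      orbits fun i => curve 0 (b i) (c i) w : ℤ) : ℝ) =
      (Pool.Agent.Results.MP_6090f9_nt.ProductsOfPencils.rankNS b c : ℝ) +
        (Nat.card (Quot (Pool.Agent.Helper94.KM.NRel (AlgebraicClosure K)
          fun i => (G i).map (algebraMap R K))) : ℝ) := by
    have hFG : (fun i => (G i).map (algebraMap R K)) = fun i => curve 0 (b i) (c i) w := funext hGK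
    rw [hFG, Int.cast_add, Int.cast_natCast]
    rfl
  rw [hrank]
  exact r3

end Pool.Agent.Results.MP_6090f9_nt.KummerVarieties
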