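import Pool.Agent.Helper94.KM.Nod2
import Pool.Agent.Results.MP_6090f9_nt.HyperellipticSurfaces

/-!
# The residue formula for the resolutions of nodal surfaces which are fibred in hyperelliptic curves

Let `M` be a finitely generated field of characteristic zero and of transcendence degree `d` over `ℚ`,
which contains the number field `k`, and let `K = M(w)`: the function field of a variety over `k` of
dimension `d + 1`.  Let `g, n ≥ 1`, and let `a, b, c ∈ M[t][x]`, where `c` is monic of degree `2g + 1` in
`x`, the degrees of `a` and `b` in `x` are less than `2g + 1`, the coefficients of `x^j` in `a, b, c` are of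
degree `≤ 2n(2g + 1 - j)` in `t`, and `b² ≠ 4ac`.  Let `S` be the projective surface over `K` with the
equation

  `y² = F(t, x)`,  `F = a(t, x) w² + b(t, x) w + c(t, x)`;

near `t = ∞` one puts `t = 1 / t'`, `x = x' / t'^{2n}`, `y = y' / t'^{n(2g+1)}`, and on every fibre of
`S → ℙ¹` there is one more point: the section `O`.  The singular points of `S` over the algebraic closure of
`K`, which are not on the fibre at `t = ∞`, are the points `(t, x, 0)` at which `F`, `∂F/∂t` and `∂F/∂x` are
zero.  There are only finitely many of them, as the generic fibre is smooth.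

Let `X → S` be the minimal resolution of the singularities.  Suppose that the singular points are nodes
(the Hessian of `F` is not zero there), and that there are none at `t = ∞` (this is a choice of the coordinate
`t`).  Then the fibre of `X → S` at a singular point is a smooth conic with self-intersection `-2`; over a
finite field it has `q + 1` rational points.  So

* the fibres of `X → ℙ¹` are reducible at the nodes; by the formula of Shioda and Tate the rank of `NS(X/K)`
  is `2 + r + s`, where `r` is the rank of `J(K(t))`, the Jacobian of the generic fibre, and `s` is the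
  number of the orbits of the nodes under the Galois group of `K`;
* `H¹(X) = H³(X) = 0`, and the trace of the Frobenius on `H²` of a fibre of good reduction of `X` is
  `#X(F) - 1 - q² = #S(F) + q · #{rational nodes} - 1 - q²`.

For `g = 1` these are the elliptic surfaces with a section (rational surfaces for `n = 1`, K3 surfaces for
`n = 2`) whose reducible fibres have nodes as the only singularities in their Weierstrass model.

**Theorem.**  For all these families the rank of `NS(X/K)` is finite, and for every model of `K` and of the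
surface over the integers of `k`, over all sufficiently small open subsets of the base, the series of the
averages `𝔅_v` of the traces of the Frobenius on `H²` of the fibres of `X` has the residue
`2 + r + s = rank NS(X/K)` at `s = 2`.

The starting file `HyperellipticSurfaces` has the average of `#S(F) - 1 - q²`, which is the trace on `H²` only
for smooth `S`, that is, if all the fibres of `X → ℙ¹` are irreducible.  Here we show that the average number
of the rational solutions of an arbitrary system of equations with finitely many solutions over the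
algebraic closure of `K` is the number of the Galois orbits of the solutions.
-/

set_option autoImplicit false

namespace Pool.Agent.Results.MP_6090f9_nt.NodalSurfaces

open Polynomial NumberField IsDedekindDomain
open Pool.Agent.Y707.PR (HasResidue)
open Pool.Agent.Results.MP_6090f9_nt.HyperellipticSurfaces (surface generic ClassGroupHasRank
  atInfinity points)

/-- The derivative with respect to `t` of a polynomial in `x` over `R[t]`. -/
noncomputable def derivT {R : Type} [CommRing R] (P : R[X][X]) : R[X][X] :=
  P.sum fun j c => monomial j (derivative c)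

/-- The value `P(t, x)`. -/
noncomputable def value {R : Type} [CommRing R] (P : R[X][X]) (Q : R × R) : R :=
  (P.map (evalRingHom Q.1)).eval Q.2

/-- `P`, `∂P/∂x` and `∂P/∂t` are zero at the point `Q = (t, x)`: the surface `y² = P(t, x)` is singular at
`(t, x, 0)`. -/
def IsSingular {R : Type} [CommRing R] (P : R[X][X]) (Q : R × R) : Prop :=
  value P Q = 0 ∧ value (derivative P) Q = 0 ∧ value (derivT P) Q = 0

/-- The singular points over the algebraic closure of `K`. -/
abbrev Node {K : Type} [Field K] (F : K[X][X]) : Type :=
  {Q : AlgebraicClosure K × AlgebraicClosure K //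
    IsSingular (F.map (mapRingHom (algebraMap K (AlgebraicClosure K)))) Q}

/-- Two singular points are conjugate over `K`. -/
def Conjugate {K : Type} [Field K] (F : K[X][X]) (P Q : Node F) : Prop :=
  ∃ σ : AlgebraicClosure K ≃ₐ[K] AlgebraicClosure K, σ P.1.1 = Q.1.1 ∧ σ P.1.2 = Q.1.2

/-- The number of the orbits of the singular points under the Galois group of `K`. -/
noncomputable def orbits {K : Type} [Field K] (F : K[X][X]) : ℕ := Nat.card (Quot (Conjugate F))

/-- The trace of the Frobenius on `H²` of the resolution of the surface `y² = P(t, x)`, with the fibre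
`y² = P'(x)` at `t = ∞`: the number of its points is the number of the points of the surface plus `q` for
each rational node, and the trace is this number minus `1 + q²`. -/
noncomputable def trace (F : Type) [Field F] (P : F[X][X]) (P' : F[X]) : ℝ :=
  (points F P P' : ℝ) + (Nat.card F : ℝ) * Nat.card {Q : F × F // IsSingular P Q} - 1 -
    (Nat.card F : ℝ) ^ 2

/-- The average `𝔅_v = q_v^{-m} ∑ b(fibre)` of the traces on `H²` of the resolutions of the surfaces
`y² = G(t, x)` over the points of `Spec R` above `v`, rational over the residue field of `v`, at which `N`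
does not vanish. -/
noncomputable def average {k R : Type} [Field k] [NumberField k] [CommRing R] [Algebra (𝓞 k) R]
    (g n : ℕ) (G : R[X][X]) (N : R) (m : ℕ) (v : HeightOneSpectrum (𝓞 k)) : ℝ :=
  ((Nat.card (𝓞 k ⧸ v.asIdeal) : ℝ) ^ m)⁻¹ *
    ∑ᶠ φ : {φ : R →+* 𝓞 k ⧸ v.asIdeal //
      φ.comp (algebraMap (𝓞 k) R) = Ideal.Quotient.mk v.asIdeal ∧ φ N ≠ 0},
        trace (𝓞 k ⧸ v.asIdeal) (G.map (mapRingHom φ.1)) ((atInfinity g n G).map φ.1)

/-- **The residue formula for the resolutions of the surfaces `y² = a(t, x) w² + b(t, x) w + c(t, x)` over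
`M(w)`, fibred over the `t`-line, for an arbitrary finitely generated field `M` of characteristic zero and
for every model.** -/
theorem result {k : Type} [Field k] [NumberField k] {M : Type} [Field M] [CharZero M] [Algebra k M]
    (hM : ∃ S : Finset M, Subfield.closure (S : Set M) = ⊤) {d : ℕ} (hd : Algebra.trdeg ℚ M = d)
    {K : Type} [Field K] [CharZero K] [Algebra M K] {w : K} (hw : Transcendental M w)
    (hK : IntermediateField.adjoin M {w} = ⊤)
    {g n : ℕ} (hg : 1 ≤ g) (hn : 1 ≤ n) {a b c : M[X][X]} (hc : c.Monic)
    (hcd : c.natDegree = 2 * g + 1) (ha : a.natDegree < 2 * g + 1) (hb : b.natDegree < 2 * g + 1)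
    (hat : ∀ j, (a.coeff j).natDegree ≤ 2 * n * (2 * g + 1 - j))
    (hbt : ∀ j, (b.coeff j).natDegree ≤ 2 * n * (2 * g + 1 - j))
    (hct : ∀ j, (c.coeff j).natDegree ≤ 2 * n * (2 * g + 1 - j))
    (hΔ : b ^ 2 - 4 * a * c ≠ 0) (hs : (generic (surface a b c w)).Separable) :
    Finite (Node (surface a b c w)) ∧
    ∃ r : ℕ, ClassGroupHasRank (generic (surface a b c w)) r ∧
      ∀ (R : Type) [CommRing R] [IsDomain R] [Algebra.FiniteType ℤ R] [Algebra R K]
        [IsFractionRing R K] [Algebra (𝓞 k) R],
        (∀ z : 𝓞 k, algebraMap R K (algebraMap (𝓞 k) R z) = algebraMap M K (algebraMap k M z)) →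
        ∀ G : R[X][X], G.Monic → G.map (mapRingHom (algebraMap R K)) = surface a b c w →
          ∃ N₀ : R, N₀ ≠ 0 ∧ ∀ N : R, N ≠ 0 → N₀ ∣ N →
            ∀ S : Finset (HeightOneSpectrum (𝓞 k)),
              HasResidue S (fun v => average g n G N (d + 1) v) 2
                (2 + r + orbits (surface a b c w)) := by
  classical
  obtain ⟨h1, h2, -, -, -, -, h3, h4⟩ :=
    Pool.Agent.Results.MP_6090f9_nt.HyperellipticSurfaces.result (k := k)
      hM hd hw hK hg hn hc hcd ha hb hat hbt hct hΔ hs
  refine ⟨Pool.Agent.Helper94.KM.finite_sing h2 hs, _, h3, ?_⟩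
  intro R _ _ _ _ _ _ hk G hG hGK
  obtain ⟨N₀, hN₀, h5⟩ := Pool.Agent.Helper94.KM.residue_sing (k := k) (AlgebraicClosure K)
    (Pool.Agent.R410.NG.fg_line hM hK) h1 h2 hs (algebraMap (𝓞 k) R) hGK
  refine ⟨N₀, hN₀, fun N hN hdvd S => ?_⟩
  have r1 := h4 R hk G hG hGK N hN S
  have r2 := Pool.Agent.R410.NG.residue_shift (h5 N hN hdvd S)
  have r3 := Pool.Agent.R410.NG.residue_add r1 r2
  have hfun : (fun v : HeightOneSpectrum (𝓞 k) =>
      Pool.Agent.Results.MP_6090f9_nt.HyperellipticSurfaces.average g n G N (d + 1) v +
        (Ideal.absNorm v.asIdeal : ℝ) * (((Nat.card (𝓞 k ⧸ v.asIdeal) : ℝ) ^ (d + 1))⁻¹ *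
          ∑ᶠ φ : {φ : R →+* 𝓞 k ⧸ v.asIdeal //
            φ.comp (algebraMap (𝓞 k) R) = Ideal.Quotient.mk v.asIdeal ∧ φ N ≠ 0},
            (Nat.card {Q : (𝓞 k ⧸ v.asIdeal) × (𝓞 k ⧸ v.asIdeal) //
              Pool.Agent.Helper94.KM.IsSing (G.map (mapRingHom φ.1)) Q} : ℝ))) =
      fun v => average g n G N (d + 1) v := by
    funext v
    have hfv := Pool.Agent.H341R2.finite_v v
    have hfin : Finite (R →+* 𝓞 k ⧸ v.asIdeal) := inferInstance
    have hqn : (Ideal.absNorm v.asIdeal : ℝ) = (Nat.card (𝓞 k ⧸ v.asIdeal) : ℝ) := rfl
    have key : ∀ (H : Type) [Finite H] (f g : H → ℝ) (A q : ℝ),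
        A * ∑ᶠ φ, f φ + q * (A * ∑ᶠ φ, g φ) = A * ∑ᶠ φ, (f φ + q * g φ) := by
      intro H _ f g A q
      let _ : Fintype H := Fintype.ofFinite _
      rw [finsum_eq_sum_of_fintype, finsum_eq_sum_of_fintype, finsum_eq_sum_of_fintype,
        Finset.sum_add_distrib, ← Finset.mul_sum]
      ring
    unfold Pool.Agent.Results.MP_6090f9_nt.HyperellipticSurfaces.average average
    rw [hqn, key]
    congr 1
    refine finsum_congr fun φ => ?_
    unfold Pool.Agent.Results.MP_6090f9_nt.HyperellipticSurfaces.traceTwo trace
    have e1 : Nat.card {Q : (𝓞 k ⧸ v.asIdeal) × (𝓞 k ⧸ v.asIdeal) //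
        Pool.Agent.Helper94.KM.IsSing (G.map (mapRingHom φ.1)) Q} =
        Nat.card {Q : (𝓞 k ⧸ v.asIdeal) × (𝓞 k ⧸ v.asIdeal) //
          IsSingular (G.map (mapRingHom φ.1)) Q} := rfl
    rw [e1]
    ring
  rw [hfun] at r3
  exact r3

end Pool.Agent.Results.MP_6090f9_nt.NodalSurfaces
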